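import Pool.Agent.Helper98.LM.St
import Pool.Agent.Helper9.SU.M_ALL

/-!
# Project LM, module GAB: the mean value of the correlations
-/

set_option autoImplicit false

noncomputable section

namespace Pool.Agent.Helper66.LM

open Finset
open Pool.Agent.Helper98.LM
open Pool.Agent.Helper18.TR (StFL)
open Pool.Agent.Helper15.AB (StMT)
open Pool.Agent.Helper30.LQ (StMR4)

/-- the numbers of the `j` by classes -/
private theorem cnt_GAB (Q I : Finset ℕ) (J : ℕ) (D : ℕ → ℕ) (S : ℕ → Finset ℕ)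
    (hQ : ∀ l ∈ Q, l.Prime) (hI : I ⊆ Icc 1 J)
    (hS : ∀ l ∈ Q, (∀ s ∈ S l, s < l) ∧ (S l).card ≤ 4)
    (hD : ∀ l ∈ Q, ∀ j ∈ I, l ∣ D j → j % l ∈ S l) :
    ∀ T ⊆ Q, ((I.filter (fun j : ℕ => ∀ l ∈ T, l ∣ D j)).card : ℝ) ≤
      4 ^ T.card * (J / ∏ l ∈ T, (l : ℝ) + 1) := by
  intro T hT
  have h1 := Pool.Agent.Helper9.SU.cntT_ALL 0 J S T
    (fun l hl => ⟨hQ l (hT hl), (hS l (hT hl)).1⟩) 1 0 le_rfl
    (fun l _ => Nat.coprime_one_right l)
  have h2 : I.filter (fun j : ℕ => ∀ l ∈ T, l ∣ D j) ⊆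
      (Ioc 0 (0 + J)).filter (fun e => e % 1 = 0 % 1 ∧ ∀ l ∈ T, e % l ∈ S l) := by
    intro j hj
    rw [mem_filter] at hj
    have h3 := mem_Icc.1 (hI hj.1)
    rw [mem_filter, mem_Ioc]
    exact ⟨⟨by omega, by omega⟩, by simp [Nat.mod_one],
      fun l hl => hD l (hT hl) j hj.1 (hj.2 l hl)⟩
  have h3 : ((I.filter (fun j : ℕ => ∀ l ∈ T, l ∣ D j)).card : ℝ) ≤
      (((Ioc 0 (0 + J)).filter (fun e => e % 1 = 0 % 1 ∧ ∀ l ∈ T, e % l ∈ S l)).card : ℝ) := by
    exact_mod_cast card_le_card h2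
  have h4 := (abs_le.1 h1).2
  rw [Nat.cast_one, div_one] at h4
  have h5 : ∏ l ∈ T, ((S l).card : ℝ) ≤ 4 ^ T.card := by
    calc ∏ l ∈ T, ((S l).card : ℝ) ≤ ∏ l ∈ T, (4 : ℝ) :=
          prod_le_prod (fun _ _ => Nat.cast_nonneg _)
            (fun l hl => by exact_mod_cast (hS l (hT hl)).2)
      _ = 4 ^ T.card := by rw [prod_const]
  have h6 : 0 < ∏ l ∈ T, (l : ℝ) :=
    prod_pos (fun l hl => by exact_mod_cast (hQ l (hT hl)).pos)
  rw [prod_div_distrib] at h4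
  have h7 : (J : ℝ) * ((∏ l ∈ T, ((S l).card : ℝ)) / ∏ l ∈ T, (l : ℝ)) ≤
      4 ^ T.card * (J / ∏ l ∈ T, (l : ℝ)) := by
    calc (J : ℝ) * ((∏ l ∈ T, ((S l).card : ℝ)) / ∏ l ∈ T, (l : ℝ)) =
          (∏ l ∈ T, ((S l).card : ℝ)) * (J / ∏ l ∈ T, (l : ℝ)) := by ring
      _ ≤ 4 ^ T.card * (J / ∏ l ∈ T, (l : ℝ)) :=
          mul_le_mul_of_nonneg_right h5 (div_nonneg (Nat.cast_nonneg _) h6.le)
  have h8 : (4 : ℝ) ^ T.card * (J / ∏ l ∈ T, (l : ℝ) + 1) =
      4 ^ T.card * (J / ∏ l ∈ T, (l : ℝ)) + 4 ^ T.card := by ring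
  rw [h8]
  linarith

/-- the classes by the roots of a polynomial -/
private theorem roots_GAB (l : ℕ) (hl : l.Prime) (P r : ℕ) (hP : ¬ l ∣ P)
    (f : Polynomial (ZMod l)) (hf : f ≠ 0) (hd : f.natDegree ≤ 4) :
    (∀ s ∈ (range l).filter (fun s : ℕ => f.eval ((r : ZMod l) + P * s) = 0), s < l) ∧
    ((range l).filter (fun s : ℕ => f.eval ((r : ZMod l) + P * s) = 0)).card ≤ 4 := by
  have : Fact l.Prime := ⟨hl⟩
  refine ⟨fun s hs => mem_range.1 (mem_filter.1 hs).1, ?_⟩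
  have h1 : ((range l).filter (fun s : ℕ => f.eval ((r : ZMod l) + P * s) = 0)).card ≤
      f.roots.toFinset.card := by
    refine card_le_card_of_injOn (fun s : ℕ => (r : ZMod l) + P * s) ?_ ?_
    · intro s hs
      have h2 := (mem_filter.1 (mem_coe.1 hs)).2
      simp only [mem_coe, Multiset.mem_toFinset, Polynomial.mem_roots hf, Polynomial.IsRoot]
      exact h2
    · intro s hs t ht h
      have hs' := mem_range.1 (mem_filter.1 (mem_coe.1 hs)).1
      have ht' := mem_range.1 (mem_filter.1 (mem_coe.1 ht)).1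
      have h3 : (P : ZMod l) * s = (P : ZMod l) * t := add_left_cancel h
      have h4 : (P : ZMod l) ≠ 0 := by
        intro h5
        exact hP ((ZMod.natCast_eq_zero_iff P l).1 h5)
      have h5 := mul_left_cancel₀ h4 h3
      rw [ZMod.natCast_eq_natCast_iff'] at h5
      rwa [Nat.mod_eq_of_lt hs', Nat.mod_eq_of_lt ht'] at h5
  exact h1.trans ((Multiset.toFinset_card_le _).trans ((Polynomial.card_roots' f).trans hd))

/-- the product over the large primes -/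
private theorem large_GAB (p w : ℕ) (hp : 1 ≤ p) :
    ∏ l ∈ QQ p w, (1 + 32 / (l : ℝ) ^ 2) ≤ Real.exp (32 / p) := by
  have h1 : ∏ l ∈ QQ p w, (1 + 32 / (l : ℝ) ^ 2) ≤ Real.exp (∑ l ∈ QQ p w, 32 / (l : ℝ) ^ 2) := by
    rw [Real.exp_sum]
    refine prod_le_prod (fun l _ => by positivity) (fun l _ => ?_)
    have := Real.add_one_le_exp (32 / (l : ℝ) ^ 2)
    linarith
  refine h1.trans (Real.exp_le_exp.2 ?_)
  have h2 : ∑ l ∈ QQ p w, 32 / (l : ℝ) ^ 2 ≤ ∑ l ∈ Ioc p w, 32 / (l : ℝ) ^ 2 :=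
    sum_le_sum_of_subset_of_nonneg (filter_subset _ _) (fun l _ _ => by positivity)
  refine h2.trans ?_
  by_cases hw : p ≤ w
  · have h3 := sum_Ioc_inv_sq_le_sub (α := ℝ) (k := p) (n := w) (by omega) hw
    have h4 : ∑ l ∈ Ioc p w, 32 / (l : ℝ) ^ 2 = 32 * ∑ l ∈ Ioc p w, ((l : ℝ) ^ 2)⁻¹ := by
      rw [mul_sum]
      rfl
    rw [h4, div_eq_mul_inv]
    have h5 : (0 : ℝ) ≤ (w : ℝ)⁻¹ := by positivity
    linarith
  · rw [Ioc_eq_empty (by omega), sum_empty]
    positivity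

/-- the product over the small primes -/
private theorem small_GAB (C : ℝ) (hC : ∀ y : ℝ, 3 ≤ y →
    |∑ l ∈ (Icc 1 ⌊y⌋₊).filter Nat.Prime, (1 : ℝ) / l - Real.log (Real.log y)| ≤ C)
    (p w Y : ℕ) (hY : 3 ≤ Y) :
    ∏ l ∈ (QQ p w).filter (fun l => l ≤ Y), (1 + 32 / (l : ℝ)) ≤
      Real.exp (32 * C) * Real.log Y ^ 32 := by
  have hY3 : (3 : ℝ) ≤ Y := by exact_mod_cast hY
  have hlog : 0 < Real.log Y := Real.log_pos (by linarith)
  have h1 : ∏ l ∈ (QQ p w).filter (fun l => l ≤ Y), (1 + 32 / (l : ℝ)) ≤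
      Real.exp (∑ l ∈ (QQ p w).filter (fun l => l ≤ Y), 32 / (l : ℝ)) := by
    rw [Real.exp_sum]
    refine prod_le_prod (fun l _ => by positivity) (fun l _ => ?_)
    have := Real.add_one_le_exp (32 / (l : ℝ))
    linarith
  have h2 : ∑ l ∈ (QQ p w).filter (fun l => l ≤ Y), 32 / (l : ℝ) ≤
      32 * ∑ l ∈ (Icc 1 Y).filter Nat.Prime, (1 : ℝ) / l := by
    rw [mul_sum]
    have h3 : ∑ l ∈ (Icc 1 Y).filter Nat.Prime, 32 * ((1 : ℝ) / l) =
        ∑ l ∈ (Icc 1 Y).filter Nat.Prime, 32 / (l : ℝ) :=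
      sum_congr rfl (fun l _ => by ring)
    rw [h3]
    refine sum_le_sum_of_subset_of_nonneg ?_ (fun l _ _ => by positivity)
    intro l hl
    rw [mem_filter, QQ, mem_filter, mem_Ioc] at hl
    rw [mem_filter, mem_Icc]
    exact ⟨⟨hl.1.2.pos, hl.2⟩, hl.1.2⟩
  have h4 := (abs_le.1 (hC Y hY3)).2
  rw [Nat.floor_natCast] at h4
  calc ∏ l ∈ (QQ p w).filter (fun l => l ≤ Y), (1 + 32 / (l : ℝ)) ≤
        Real.exp (∑ l ∈ (QQ p w).filter (fun l => l ≤ Y), 32 / (l : ℝ)) := h1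
    _ ≤ Real.exp (32 * C + ((32 : ℕ) : ℝ) * Real.log (Real.log Y)) := by
        refine Real.exp_le_exp.2 ?_
        push_cast
        linarith
    _ = Real.exp (32 * C) * Real.log Y ^ 32 := by
        rw [Real.exp_add, Real.exp_nat_mul, Real.exp_log hlog]

/-- GG for classes given by the roots of a polynomial -/
private theorem main_GAB (hG : StGG) (C : ℝ) (hC : ∀ y : ℝ, 3 ≤ y →
    |∑ l ∈ (Icc 1 ⌊y⌋₊).filter Nat.Prime, (1 : ℝ) / l - Real.log (Real.log y)| ≤ C)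
    (p w P r J : ℕ) (hp : 1 ≤ p) (hP : 1 ≤ P) (hPp : ∀ l : ℕ, l.Prime → l ∣ P → l ≤ p)
    (I : Finset ℕ) (hI : I ⊆ Icc 1 J) (D : ℕ → ℕ)
    (hD : ∀ j ∈ I, 1 ≤ D j ∧ D j ≤ 3 * (P * (J + 1)) ^ 4) (f : ∀ l : ℕ, Polynomial (ZMod l))
    (hf : ∀ l : ℕ, l.Prime → f l ≠ 0 ∧ (f l).natDegree ≤ 4)
    (hfD : ∀ l : ℕ, l.Prime → ∀ j ∈ I, l ∣ D j → (f l).eval ((r : ZMod l) + P * j) = 0) :
    ∑ j ∈ I, ∏ l ∈ (QQ p w).filter (fun l => l ∣ D j), (1 + 8 / (l : ℝ)) ≤
      J * Real.exp (32 / p) + Real.exp (32 * C) * Real.log (3 * (P * (J + 1)) ^ 4) ^ 32 := by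
  have hQ : ∀ l ∈ QQ p w, l.Prime ∧ p < l := by
    intro l hl
    rw [QQ, mem_filter, mem_Ioc] at hl
    exact ⟨hl.2, hl.1.1⟩
  have hQP : ∀ l ∈ QQ p w, ¬ l ∣ P := by
    intro l hl h
    have h1 := hPp l (hQ l hl).1 h
    have h2 := (hQ l hl).2
    omega
  have h1 := hG (QQ p w) I J (3 * (P * (J + 1)) ^ 4) D (fun l hl => (hQ l hl).1) hD
    (cnt_GAB (QQ p w) I J D
      (fun l => (range l).filter (fun s : ℕ => (f l).eval ((r : ZMod l) + P * s) = 0))
      (fun l hl => (hQ l hl).1) hI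
      (fun l hl => roots_GAB l (hQ l hl).1 P r (hQP l hl) (f l) (hf l (hQ l hl).1).1
        (hf l (hQ l hl).1).2)
      (by
        intro l hl j hj hd
        rw [mem_filter, mem_range]
        refine ⟨Nat.mod_lt _ (hQ l hl).1.pos, ?_⟩
        rw [ZMod.natCast_mod]
        exact hfD l (hQ l hl).1 j hj hd))
  have h2 := large_GAB p w hp
  have hPJ : 1 ≤ P * (J + 1) := Nat.mul_pos hP (Nat.succ_pos J)
  have h3 := small_GAB C hC p w (3 * (P * (J + 1)) ^ 4) (by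
    have := Nat.one_le_pow 4 _ hPJ
    omega)
  have h4 : (((3 * (P * (J + 1)) ^ 4 : ℕ)) : ℝ) = 3 * ((P : ℝ) * ((J : ℝ) + 1)) ^ 4 := by
    push_cast
    ring
  rw [h4] at h3
  have h5 : (J : ℝ) * ∏ l ∈ QQ p w, (1 + 32 / (l : ℝ) ^ 2) ≤ J * Real.exp (32 / p) :=
    mul_le_mul_of_nonneg_left h2 (Nat.cast_nonneg _)
  linarith

/-- the divisors of the correlation -/
private theorem dd_GAB (l : ℕ) (k k' : ℕ) (h : l ∣ DD k k') :
    (k : ZMod l) ^ 4 - (k' : ZMod l) ^ 3 * k = 0 := by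
  have h1 : (l : ℤ) ∣ ((DD k k' : ℕ) : ℤ) := by exact_mod_cast h
  have h2 : ((DD k k' : ℕ) : ℤ) = k * |(k : ℤ) - k'| * ((k : ℤ) ^ 2 + k * k' + k' ^ 2) := by
    unfold DD
    push_cast
    rfl
  have h3 : (l : ℤ) ∣ (k : ℤ) ^ 4 - (k' : ℤ) ^ 3 * k := by
    rcases abs_choice ((k : ℤ) - k') with h4 | h4
    · rw [h4] at h2
      have h5 : (k : ℤ) ^ 4 - (k' : ℤ) ^ 3 * k = ((DD k k' : ℕ) : ℤ) := by
        rw [h2]
        ring
      rw [h5]
      exact h1
    · rw [h4] at h2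
      have h5 : (k : ℤ) ^ 4 - (k' : ℤ) ^ 3 * k = -((DD k k' : ℕ) : ℤ) := by
        rw [h2]
        ring
      rw [h5]
      exact (dvd_neg).2 h1
  have h4 := (ZMod.intCast_zmod_eq_zero_iff_dvd ((k : ℤ) ^ 4 - (k' : ℤ) ^ 3 * k) l).2 h3
  push_cast at h4
  exact h4

theorem hGAB (hG : StGG) (hM : StMT) : StGAB := by
  obtain ⟨C, hC0, hC⟩ := hM
  intro ε hε
  have hL : 0 < Real.log (1 + ε / 2) := Real.log_pos (by linarith)
  refine ⟨⌈32 / Real.log (1 + ε / 2)⌉₊ + 1, ?_⟩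
  intro p P hp hP hPp
  have hp1 : 1 ≤ p := by omega
  have hpR : 32 / Real.log (1 + ε / 2) ≤ p := by
    have h1 := Nat.le_ceil (32 / Real.log (1 + ε / 2))
    have h2 : ((⌈32 / Real.log (1 + ε / 2)⌉₊ + 1 : ℕ) : ℝ) ≤ p := by exact_mod_cast hp
    push_cast at h2
    linarith
  have hp0 : (0 : ℝ) < p := by exact_mod_cast hp1
  have hexp : Real.exp (32 / p) ≤ 1 + ε / 2 := by
    rw [← Real.le_log_iff_exp_le (by linarith)]
    rw [div_le_iff₀ hp0]
    rw [div_le_iff₀ hL] at hpR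
    linarith
  have hPR : (1 : ℝ) ≤ P := by exact_mod_cast hP
  -- the choice of `J₀`
  have hη : 0 < ε / (2 * (Real.exp (32 * C) * 4 ^ 32 * (6 * P))) := by positivity
  have hlit := (Real.isLittleO_pow_log_id_atTop (n := 32)).bound hη
  obtain ⟨X₀, hX₀⟩ := Filter.eventually_atTop.1 hlit
  refine ⟨⌈X₀⌉₊ + 1, ?_⟩
  intro J r w hJ hr
  have hJ1 : 1 ≤ J := by omega
  have hJR : (1 : ℝ) ≤ J := by exact_mod_cast hJ1
  have hJX : X₀ ≤ J := by
    have h1 := Nat.le_ceil X₀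
    have h2 : ((⌈X₀⌉₊ + 1 : ℕ) : ℝ) ≤ J := by exact_mod_cast hJ
    push_cast at h2
    linarith
  have herr : Real.exp (32 * C) * Real.log (3 * (P * (J + 1)) ^ 4) ^ 32 ≤ ε / 2 * J := by
    set x : ℝ := 3 * (P * (J + 1)) with hx
    have hPJ : (J : ℝ) + 1 ≤ P * (J + 1) := by nlinarith
    have hx1 : 3 ≤ x := by linarith
    have hxJ : (J : ℝ) ≤ x := by linarith
    have hx6 : x ≤ 6 * P * J := by
      rw [hx]
      nlinarith
    have h1 := hX₀ x (hJX.trans hxJ)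
    simp only [id, Real.norm_eq_abs] at h1
    have hlogx : 0 ≤ Real.log x := Real.log_nonneg (by linarith)
    rw [abs_of_nonneg (pow_nonneg hlogx 32), abs_of_nonneg (by linarith : 0 ≤ x)] at h1
    have h2 : Real.log (3 * (P * (J + 1)) ^ 4) ≤ 4 * Real.log x := by
      have h3 : (3 : ℝ) * (P * (J + 1)) ^ 4 ≤ x ^ 4 := by
        rw [hx, mul_pow]
        have : 0 ≤ ((P : ℝ) * (J + 1)) ^ 4 := by positivity
        nlinarith
      calc Real.log (3 * (P * (J + 1)) ^ 4) ≤ Real.log (x ^ 4) :=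
            Real.log_le_log (by positivity) h3
        _ = 4 * Real.log x := by
            rw [Real.log_pow]
            push_cast
            ring
    have h4 : 0 ≤ Real.log (3 * ((P : ℝ) * (J + 1)) ^ 4) := by
      refine Real.log_nonneg ?_
      have h5 : (1 : ℝ) ≤ ((P : ℝ) * (J + 1)) ^ 4 := one_le_pow₀ (by linarith)
      linarith
    have h5 : Real.log (3 * ((P : ℝ) * (J + 1)) ^ 4) ^ 32 ≤ 4 ^ 32 * Real.log x ^ 32 := by
      rw [← mul_pow]
      exact pow_le_pow_left₀ h4 h2 32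
    have hE : 0 < Real.exp (32 * C) := Real.exp_pos _
    calc Real.exp (32 * C) * Real.log (3 * (P * (J + 1)) ^ 4) ^ 32 ≤
          Real.exp (32 * C) * (4 ^ 32 * Real.log x ^ 32) := mul_le_mul_of_nonneg_left h5 hE.le
      _ ≤ Real.exp (32 * C) * (4 ^ 32 * (ε / (2 * (Real.exp (32 * C) * 4 ^ 32 * (6 * P))) * x)) := by
          refine mul_le_mul_of_nonneg_left ?_ hE.le
          exact mul_le_mul_of_nonneg_left h1 (by positivity)
      _ ≤ Real.exp (32 * C) * (4 ^ 32 * (ε / (2 * (Real.exp (32 * C) * 4 ^ 32 * (6 * P))) *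
            (6 * P * J))) := by
          refine mul_le_mul_of_nonneg_left ?_ hE.le
          refine mul_le_mul_of_nonneg_left ?_ (by positivity)
          exact mul_le_mul_of_nonneg_left hx6 hη.le
      _ = ε / 2 * J := by
          have hP0 : (P : ℝ) ≠ 0 := by positivity
          field_simp
  have htot : J * Real.exp (32 / p) + Real.exp (32 * C) * Real.log (3 * (P * (J + 1)) ^ 4) ^ 32 ≤
      (1 + ε) * J := by
    have h1 : (J : ℝ) * Real.exp (32 / p) ≤ J * (1 + ε / 2) :=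
      mul_le_mul_of_nonneg_left hexp (by linarith)
    linarith
  have hK : ∀ j ∈ Icc 1 J, 1 ≤ r + P * j ∧ r + P * j ≤ P * (J + 1) := by
    intro j hj
    rw [mem_Icc] at hj
    have h1 : P * 1 ≤ P * j := Nat.mul_le_mul_left P hj.1
    have h2 : P * j ≤ P * J := Nat.mul_le_mul_left P hj.2
    have h3 : P * (J + 1) = P * J + P := by ring
    constructor
    · omega
    · omega
  have hPJ : 1 ≤ P * (J + 1) := Nat.mul_pos hP (Nat.succ_pos J)
  constructor
  · refine (main_GAB hG C hC p w P r J hp1 hP hPp (Icc 1 J) (Subset.refl _) (fun j => r + P * j)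
      ?_ (fun _ => Polynomial.X) ?_ ?_).trans htot
    · intro j hj
      refine ⟨(hK j hj).1, (hK j hj).2.trans ?_⟩
      have h1 : P * (J + 1) ≤ (P * (J + 1)) ^ 4 := Nat.le_self_pow (by norm_num) _
      omega
    · intro l hl
      have : Fact l.Prime := ⟨hl⟩
      exact ⟨Polynomial.X_ne_zero, by rw [Polynomial.natDegree_X]; norm_num⟩
    · intro l hl j hj hd
      rw [Polynomial.eval_X]
      have h1 := (ZMod.natCast_eq_zero_iff (r + P * j) l).2 hd
      push_cast at h1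
      exact h1
  · intro j' hj'
    refine (main_GAB hG C hC p w P r J hp1 hP hPp ((Icc 1 J).erase j') (erase_subset _ _)
      (fun j => DD (r + P * j) (r + P * j')) ?_
      (fun l => Polynomial.X ^ 4 - Polynomial.C (((r + P * j' : ℕ) : ZMod l) ^ 3) * Polynomial.X)
      ?_ ?_).trans htot
    · intro j hj
      rw [mem_erase] at hj
      obtain ⟨hne, hj⟩ := hj
      have hk := hK j hj
      have hk' := hK j' hj'
      set k : ℕ := r + P * j with hkdef
      set k' : ℕ := r + P * j' with hkdef'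
      have hkk : ((k : ℤ) - k').natAbs ≠ 0 := by
        rw [Int.natAbs_ne_zero, sub_ne_zero]
        intro h1
        have h2 : k = k' := by exact_mod_cast h1
        have h3 : P * j = P * j' := by omega
        exact hne (Nat.eq_of_mul_eq_mul_left (by omega) h3)
      have hkK : ((k : ℤ) - k').natAbs ≤ P * (J + 1) := by omega
      have h1 : 1 ≤ k ^ 2 + k * k' + k' ^ 2 := by
        have := Nat.one_le_pow 2 k hk.1
        omega
      constructor
      · unfold DD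
        exact Nat.mul_pos (Nat.mul_pos hk.1 (Nat.pos_of_ne_zero hkk)) h1
      · unfold DD
        have h2 : k ^ 2 + k * k' + k' ^ 2 ≤ 3 * (P * (J + 1)) ^ 2 := by
          have h3 : k ^ 2 ≤ (P * (J + 1)) ^ 2 := Nat.pow_le_pow_left hk.2 2
          have h4 : k' ^ 2 ≤ (P * (J + 1)) ^ 2 := Nat.pow_le_pow_left hk'.2 2
          have h5 : k * k' ≤ (P * (J + 1)) * (P * (J + 1)) := Nat.mul_le_mul hk.2 hk'.2
          have h6 : (P * (J + 1)) * (P * (J + 1)) = (P * (J + 1)) ^ 2 := by ring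
          omega
        calc k * ((k : ℤ) - k').natAbs * (k ^ 2 + k * k' + k' ^ 2) ≤
              (P * (J + 1)) * (P * (J + 1)) * (3 * (P * (J + 1)) ^ 2) :=
              Nat.mul_le_mul (Nat.mul_le_mul hk.2 hkK) h2
          _ = 3 * (P * (J + 1)) ^ 4 := by ring
    · intro l hl
      have : Fact l.Prime := ⟨hl⟩
      have hdeg : (Polynomial.X ^ 4 - Polynomial.C (((r + P * j' : ℕ) : ZMod l) ^ 3) *
          Polynomial.X : Polynomial (ZMod l)).natDegree = 4 := by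
        compute_degree!
      refine ⟨?_, hdeg.le⟩
      intro h0
      rw [h0, Polynomial.natDegree_zero] at hdeg
      omega
    · intro l hl j hj hd
      have h1 := dd_GAB l (r + P * j) (r + P * j') hd
      rw [Polynomial.eval_sub, Polynomial.eval_pow, Polynomial.eval_mul, Polynomial.eval_C,
        Polynomial.eval_X]
      push_cast at h1 ⊢
      exact h1

end Pool.Agent.Helper66.LM
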